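import Pool.Agent.H891.UF.Stm

/-! Piece CHOICE: simultaneous injective choice from finitely many large sets. -/

open Finset Cardinal Module

universe u

namespace Pool.Agent.H891.UF

theorem t_CHOICE : S_CHOICE.{u} := by
  intro K I _ k S hS
  have hc : #(K × Fin k) ≤ #K := by
    rw [Cardinal.mk_prod, Cardinal.mk_fin, Cardinal.lift_natCast, Cardinal.lift_id'.{0, u}]
    refine (Cardinal.mul_le_max_of_aleph0_le_left (Cardinal.aleph0_le_mk K)).trans ?_
    exact max_le le_rfl ((Cardinal.natCast_lt_aleph0 (n := k)).le.trans (Cardinal.aleph0_le_mk K))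
  obtain ⟨e⟩ : Nonempty ((#(K × Fin k)).ord.ToType ≃ K × Fin k) :=
    Cardinal.eq.1 (Cardinal.mk_ord_toType _)
  have step : ∀ (x : (#(K × Fin k)).ord.ToType) (f : ∀ y, y < x → I),
      ∃ z, z ∈ S (e x).2 ∧ ∀ y (h : y < x), f y h ≠ z := by
    intro x f
    by_contra hcon
    push Not at hcon
    have h1 : S (e x).2 ⊆ Set.range (fun y : Set.Iio x => f y.1 y.2) := by
      intro z hz
      obtain ⟨y, hy, hyz⟩ := hcon z hz
      exact ⟨⟨y, hy⟩, hyz⟩
    have h2 := Cardinal.mk_le_mk_of_subset h1
    have h3 : #(Set.range (fun y : Set.Iio x => f y.1 y.2)) ≤ #(Set.Iio x) :=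
      Cardinal.mk_range_le
    have h4 : #(Set.Iio x) < #(K × Fin k) := by
      simpa using Cardinal.mk_Iio_lt x
    exact absurd ((((hc.trans (hS _)).trans h2).trans h3).trans_lt h4) (lt_irrefl _)
  have wf : WellFounded ((· < ·) : (#(K × Fin k)).ord.ToType → (#(K × Fin k)).ord.ToType → Prop) :=
    wellFounded_lt
  let F : (#(K × Fin k)).ord.ToType → I :=
    wf.fix (C := fun _ => I) (fun x f => Classical.choose (step x f))
  have hF : ∀ x, F x = Classical.choose (step x (fun y _ => F y)) := fun x => wf.fix_eq _ x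
  have hF1 : ∀ x, F x ∈ S (e x).2 := fun x => by
    rw [hF x]
    exact (Classical.choose_spec (step x (fun y _ => F y))).1
  have hF2 : ∀ x y, y < x → F y ≠ F x := fun x y hy => by
    rw [hF x]
    exact (Classical.choose_spec (step x (fun y _ => F y))).2 y hy
  refine ⟨fun p => F (e.symm p), ?_, ?_⟩
  · intro p q hpq
    rcases lt_trichotomy (e.symm p) (e.symm q) with h | h | h
    · exact absurd hpq (hF2 _ _ h)
    · exact e.symm.injective h
    · exact absurd hpq.symm (hF2 _ _ h)
  · intro α s
    have := hF1 (e.symm (α, s))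
    rwa [Equiv.apply_symm_apply] at this

end Pool.Agent.H891.UF
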