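import Pool.Agent.H891.UF.Transfer

/-! The case of infinitely many factors of size divisible by a prime. -/

open Finset Cardinal Filter Topology Module

universe u

namespace Pool.Agent.H891.UF

open Pool.Agent.Helper741.UHF

variable {J E : Type u} [CStarAlgebra E] {n : J → ℕ} {e : J → ℕ → ℕ → E}

/-- types -/
abbrev TyB (B : Type) (J E : Type u) : Type u := ℕ × List J × List ℕ × (B → List E)

/-- types over `N` -/
def OverB (B : Type) (e : J → ℕ → ℕ → E) (N : Set J) : Set (TyB B J E) :=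
  {τ | (∀ j ∈ τ.2.1, j ∈ N) ∧ (∀ b, ∀ c ∈ τ.2.2.2 b, c ∈ D e N)}

theorem mk_OverB_le {B : Type} [Finite B] {κ : Cardinal.{u}} (hκ : ℵ₀ ≤ κ) (N : Set J)
    (hN : #N ≤ κ) : #(OverB B e N) ≤ κ := by
  have hD : #(D e N) ≤ κ := mk_D_le.trans (max_le hκ hN)
  let F : (ULift.{u} ℕ × List N × ULift.{u} (List ℕ) × (B → List (D e N))) → TyB B J E :=
    fun p => (p.1.down, p.2.1.map Subtype.val, p.2.2.1.down, fun b => (p.2.2.2 b).map Subtype.val)
  have hsub : OverB B e N ⊆ Set.range F := by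
    rintro ⟨m, R, ν, cx⟩ ⟨h1, h2⟩
    dsimp only at h1 h2
    lift R to List N using h1
    have h3 : ∀ b, ∃ l : List (D e N), l.map Subtype.val = cx b := by
      intro b
      have hb := h2 b
      generalize cx b = l at hb
      lift l to List (D e N) using hb
      exact ⟨l, rfl⟩
    choose c hc using h3
    refine ⟨(⟨m⟩, R, ⟨ν⟩, c), ?_⟩
    simp only [F]
    refine Prod.ext rfl (Prod.ext rfl (Prod.ext rfl ?_))
    funext b
    exact hc b
  refine (mk_le_mk_of_subset hsub).trans (mk_range_le.trans ?_)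
  simp only [mk_prod, lift_id]
  refine mul_le_of_le hκ (by simpa using hκ) ?_
  refine mul_le_of_le hκ (mk_list_le hκ hN) ?_
  refine mul_le_of_le hκ (by simpa using hκ) ?_
  rw [mk_arrow]
  obtain ⟨k, hk⟩ := Cardinal.lt_aleph0.mp (Cardinal.lt_aleph0_of_finite B)
  rw [hk]
  simp only [lift_natCast, lift_id'.{0, u}, Cardinal.power_natCast]
  refine (pow_le_pow_left' (mk_list_le hκ hD) k).trans ?_
  have := Cardinal.power_nat_le (n := k) hκ
  simpa using this

theorem OverB_finitary {B : Type} [Finite B] (N : ℕ → Set J) (hN : Monotone N) (τ : TyB B J E)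
    (hτ : τ ∈ OverB B e (⋃ k, N k)) : ∃ k, τ ∈ OverB B e (N k) := by
  classical
  have := Fintype.ofFinite B
  obtain ⟨h1, h2⟩ := hτ
  obtain ⟨k1, h1⟩ := exists_k_set N hN _ h1
  have h3 : ∀ b, ∃ k, ∀ c ∈ τ.2.2.2 b, c ∈ D e (N k) := fun b => exists_k_list N hN _ (h2 b)
  choose k2 h3 using h3
  refine ⟨max k1 (Finset.univ.sup k2), ⟨fun j hj => hN (le_max_left _ _) (h1 j hj),
    fun b c hc => D_mono (hN ?_) (h3 b c hc)⟩⟩
  exact le_trans (Finset.le_sup (Finset.mem_univ b)) (le_max_right _ _)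

/-- realisation of a type -/
def RealB {B : Type} {Λ : Type u} (n : J → ℕ) (e : J → ℕ → ℕ → E) (u : Λ → B → E) (ε : ℕ → ℝ)
    (τ : TyB B J E) (β : Λ) (t : Set J) : Prop :=
  ∃ ℓ : List J, ℓ.Nodup ∧ {j | j ∈ ℓ} = t ∧ (∀ j ∈ ℓ, j ∉ τ.2.1) ∧ ℓ.map n = τ.2.2.1 ∧
    ∃ x : B → E, (∀ b, x b ∈ D e ({j | j ∈ τ.2.1} ∪ {j | j ∈ ℓ})) ∧
      (∀ b, ‖x b - u β b‖ ≤ ε τ.1) ∧ ∀ b, prof n e ℓ (x b) = τ.2.2.2 b

theorem coreB [Nontrivial E] (h : MUSys n e) {B : Type} (σ : B → B) {c : ℝ} (hc : 0 < c)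
    (L : List J) (rest r : ℕ → List J) (hrest0 : rest 0 = [])
    (hrest : ∀ m, rest (m + 1) = rest m ++ r m)
    (X : B → ℕ → E) (U : B → E) (hUs : ∀ b, star (U b) = U (σ b))
    (hX : ∀ b m, ‖X b m - U b‖ ≤ c * (1 / 2) ^ m)
    (hcX : ∀ b m, ∀ j ∈ r m, ∀ a d, Commute (e j a d) (X b m))
    (hcomm : ∀ b b' m, ∀ f ∈ idx ((L ++ rest m).map n), ∀ g ∈ idx ((L ++ rest m).map n),
      ∀ f' ∈ idx ((L ++ rest m).map n), ∀ g' ∈ idx ((L ++ rest m).map n),
      ‖Sl n e (L ++ rest m) f g (X b m) * Sl n e (L ++ rest m) f' g' (X b' m) -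
        Sl n e (L ++ rest m) f' g' (X b' m) * Sl n e (L ++ rest m) f g (X b m)‖
        ≤ 6 * (c * (1 / 2) ^ m)) :
    ∃ Z : B → E, (∀ b, ‖Z b - U b‖ ≤ 5 * c) ∧ (∀ b, star (Z b) = Z (σ b)) ∧
      ∃ C : StarSubalgebra ℂ E, IsClosed (C : Set E) ∧ (∀ x ∈ C, ∀ y ∈ C, x * y = y * x) ∧
        ∀ b, Z b ∈ sliceAlg h L C := by
  classical
  set Xt : B → ℕ → E := fun b m => Sl n e (rest m) (z0 (rest m)) (z0 (rest m)) (X b m) with hXt
  have hstep : ∀ b m, dist (Xt b m) (Xt b (m + 1)) ≤ 2 * c * (1 / 2) ^ m := by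
    intro b m
    have h1 : Xt b (m + 1) = Sl n e (rest m) (z0 (rest m)) (z0 (rest m))
        (Sl n e (r m) (z0 (r m)) (z0 (r m)) (X b (m + 1))) := by
      simp only [hXt]
      rw [hrest m, z0_append, Sl_append _ _ _ _ _ _ (z0_length _) (z0_length _)]
    have h2 : Xt b m = Sl n e (rest m) (z0 (rest m)) (z0 (rest m))
        (Sl n e (r m) (z0 (r m)) (z0 (r m)) (X b m)) := by
      rw [Sl_of_commute h (r m) _ _ (z0_mem h _) (z0_mem h _) _ (hcX b m), if_pos rfl]
    rw [dist_eq_norm, h1, h2, ← map_sub, ← map_sub]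
    refine (norm_Sl_le' h _ _ _ _).trans ((norm_Sl_le' h _ _ _ _).trans ?_)
    have h3 : X b m - X b (m + 1) = (X b m - U b) - (X b (m + 1) - U b) := by abel
    rw [h3]
    calc _ ≤ ‖X b m - U b‖ + ‖X b (m + 1) - U b‖ := norm_sub_le _ _
      _ ≤ c * (1 / 2) ^ m + c * (1 / 2) ^ (m + 1) := add_le_add (hX b m) (hX b (m + 1))
      _ ≤ 2 * c * (1 / 2) ^ m := by
          rw [pow_succ]
          have : (0 : ℝ) ≤ c * (1 / 2) ^ m := by positivity
          linarith
  have hZ : ∀ b, ∃ z, Tendsto (Xt b) atTop (𝓝 z) := fun b =>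
    cauchySeq_tendsto_of_complete
      (cauchySeq_of_le_geometric (1 / 2) (2 * c) (by norm_num) (hstep b))
  choose Z hZ using hZ
  have hZU : ∀ b, ‖Z b - U b‖ ≤ 5 * c := by
    intro b
    have h1 := dist_le_of_le_geometric_of_tendsto₀ (1 / 2) (2 * c) (by norm_num) (hstep b) (hZ b)
    have h2 : Xt b 0 = X b 0 := by
      simp only [hXt]
      rw [hrest0]
      simp
    rw [h2, dist_eq_norm] at h1
    have h3 := hX b 0
    rw [pow_zero, mul_one] at h3
    have h4 : Z b - U b = -(X b 0 - Z b) + (X b 0 - U b) := by abel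
    rw [h4]
    refine (norm_add_le _ _).trans ?_
    rw [norm_neg]
    norm_num at h1
    linarith
  have hgeo : Tendsto (fun m : ℕ => 6 * (c * (1 / 2 : ℝ) ^ m)) atTop (𝓝 0) := by
    have := (tendsto_pow_atTop_nhds_zero_of_lt_one (r := (1 / 2 : ℝ)) (by norm_num)
      (by norm_num)).const_mul c
    simpa using this.const_mul 6
  have hZs : ∀ b, star (Z b) = Z (σ b) := by
    intro b
    have h1 : Tendsto (fun m => star (Xt b m) - Xt (σ b) m) atTop (𝓝 (star (Z b) - Z (σ b))) :=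
      (hZ b).star.sub (hZ (σ b))
    have h2 : Tendsto (fun m => star (Xt b m) - Xt (σ b) m) atTop (𝓝 0) := by
      refine squeeze_zero_norm (fun m => ?_) hgeo
      simp only [hXt]
      rw [Sl_star h, ← map_sub]
      refine (norm_Sl_le' h _ _ _ _).trans ?_
      have h3 : star (X b m) - X (σ b) m = star (X b m - U b) - (X (σ b) m - U (σ b)) := by
        rw [star_sub, hUs b]
        abel
      rw [h3]
      refine (norm_sub_le _ _).trans ?_
      rw [norm_star]
      have h4 := hX b m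
      have h5 := hX (σ b) m
      have h0 : (0 : ℝ) ≤ c * (1 / 2) ^ m := by positivity
      linarith
    exact sub_eq_zero.mp (tendsto_nhds_unique h1 h2)
  have hZc : ∀ b b', ∀ f ∈ idx (L.map n), ∀ g ∈ idx (L.map n), ∀ f' ∈ idx (L.map n),
      ∀ g' ∈ idx (L.map n), Sl n e L f g (Z b) * Sl n e L f' g' (Z b') =
        Sl n e L f' g' (Z b') * Sl n e L f g (Z b) := by
    intro b b' f hf g hg f' hf' g' hg'
    have t1 : Tendsto (fun m => Sl n e L f g (Xt b m)) atTop (𝓝 (Sl n e L f g (Z b))) :=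
      ((continuous_Sl h L f g).tendsto _).comp (hZ b)
    have t2 : Tendsto (fun m => Sl n e L f' g' (Xt b' m)) atTop
        (𝓝 (Sl n e L f' g' (Z b'))) := ((continuous_Sl h L f' g').tendsto _).comp (hZ b')
    have t3 := (t1.mul t2).sub (t2.mul t1)
    have t4 : Tendsto (fun m => Sl n e L f g (Xt b m) * Sl n e L f' g' (Xt b' m) -
        Sl n e L f' g' (Xt b' m) * Sl n e L f g (Xt b m)) atTop (𝓝 0) := by
      refine squeeze_zero_norm (fun m => ?_) hgeo
      have hl : ∀ k ∈ idx (L.map n), k.length = L.length := fun k hk => by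
        simpa using length_of_mem_idx hk
      have hm : ∀ k ∈ idx (L.map n), k ++ z0 (rest m) ∈ idx ((L ++ rest m).map n) := by
        intro k hk
        rw [List.map_append]
        exact append_mem_idx hk (z0_mem h _)
      have := hcomm b b' m (f ++ z0 (rest m)) (hm f hf) (g ++ z0 (rest m)) (hm g hg)
        (f' ++ z0 (rest m)) (hm f' hf') (g' ++ z0 (rest m)) (hm g' hg')
      rwa [Sl_append _ _ _ _ _ _ (hl f hf) (hl g hg),
        Sl_append _ _ _ _ _ _ (hl f' hf') (hl g' hg')] at this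
    exact sub_eq_zero.mp (tendsto_nhds_unique t3 t4)
  let s : Set E := {z | ∃ b, ∃ f ∈ idx (L.map n), ∃ g ∈ idx (L.map n), Sl n e L f g (Z b) = z}
  have hs : ∀ z ∈ s, ∀ w ∈ s, z * w = w * z := by
    rintro _ ⟨b, f, hf, g, hg, rfl⟩ _ ⟨b', f', hf', g', hg', rfl⟩
    exact hZc b b' f hf g hg f' hf' g' hg'
  have hss : ∀ z ∈ s, star z ∈ s := by
    rintro _ ⟨b, f, hf, g, hg, rfl⟩
    refine ⟨σ b, g, hg, f, hf, ?_⟩
    rw [Sl_star h, hZs b]
  have hsu : s ∪ star s = s := by
    refine Set.union_eq_self_of_subset_right ?_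
    intro z hz
    have := hss _ hz
    rwa [star_star] at this
  let C : StarSubalgebra ℂ E := StarSubalgebra.centralizer ℂ (StarSubalgebra.centralizer ℂ s : Set E)
  have hCc : (C : Set E) = s.centralizer.centralizer := by
    have := StarSubalgebra.coe_centralizer_centralizer ℂ s
    rw [hsu] at this
    exact this
  have hC : IsClosed (C : Set E) := by
    rw [hCc]
    exact Set.isClosed_centralizer _
  have hCcomm : ∀ x ∈ C, ∀ y ∈ C, x * y = y * x := by
    intro x hx y hy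
    have hx' : x ∈ s.centralizer.centralizer := hCc ▸ hx
    have hy' : y ∈ s.centralizer.centralizer := hCc ▸ hy
    exact Set.centralizer_centralizer_comm_of_comm hs x hx' y hy'
  have hsC : ∀ z ∈ s, z ∈ C := by
    intro z hz
    have : z ∈ (C : Set E) := by
      rw [hCc]
      exact Set.subset_centralizer_centralizer hz
    exact this
  exact ⟨Z, hZU, hZs, C, hC, hCcomm, fun b f hf g hg => hsC _ ⟨b, f, hf, g, hg, rfl⟩⟩

/-- A commuting family of copies of `M_N` is at most as large as the set of factors of size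
divisible by a given prime divisor of `N`, if the latter set is infinite. -/
theorem mk_le_of_infinite' [Nontrivial E] (hH : S_HILB) (h : MUSys n e)
    (hgen : (Algebra.adjoin ℂ {x | ∃ j a b, x = e j a b}).topologicalClosure = ⊤)
    {Λ : Type u} {N : ℕ} {F : Λ → ℕ → ℕ → E} (hF : MUSys (fun _ => N) F) {p : ℕ}
    (hp : p.Prime) (hpN : p ∣ N)
    (hP : ℵ₀ ≤ #{j | p ∣ n j}) : #Λ ≤ #{j | p ∣ n j} := by
  classical
  by_contra hcon
  push Not at hcon
  have hN0 : 0 < N := by
    have : Nonempty Λ := by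
      rw [← mk_ne_zero_iff]
      intro h0
      rw [h0] at hcon
      exact absurd hcon (not_lt.mpr zero_le)
    exact hF.pos this.some
  obtain ⟨δ, hδ, hdvd⟩ := hH N hN0
  set c := min 1 (δ / (N + 4)) / 5 with hcdef
  have hN4 : (0 : ℝ) < N + 4 := by positivity
  have hc : 0 < c := by positivity
  have hc1 : 5 * c ≤ 1 := by
    have := min_le_left 1 (δ / (N + 4))
    rw [hcdef]
    linarith
  have hcδ : (N + 4) * (5 * c) ≤ δ := by
    have h1 := min_le_right 1 (δ / (N + 4))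
    have h2 : 5 * c ≤ δ / (N + 4) := by
      rw [hcdef]
      linarith
    have h3 := (le_div_iff₀ hN4).mp h2
    linarith
  set u : Λ → (Fin N × Fin N) → E := fun β b => F β b.1 b.2 with hu
  set σ : Fin N × Fin N → Fin N × Fin N := fun b => (b.2, b.1) with hσ
  set ε : ℕ → ℝ := fun m => c * (1 / 2) ^ m with hε
  have hεpos : ∀ m, 0 < ε m := fun m => by positivity
  have hε1 : ∀ m, ε m ≤ 1 := by
    intro m
    have h1 : ((1 / 2 : ℝ)) ^ m ≤ 1 := pow_le_one₀ (by norm_num) (by norm_num)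
    calc ε m ≤ c * 1 := by
          simp only [hε]
          gcongr
      _ ≤ 1 := by linarith
  obtain ⟨M, hPM, α, hα⟩ := closing_off (#{j | p ∣ n j}) hP hcon (OverB (Fin N × Fin N) e)
    (fun M hM => mk_OverB_le hP M hM) (fun M hM τ hτ => OverB_finitary M hM τ hτ)
    (RealB n e u ε) {j | p ∣ n j} le_rfl
  -- approximations
  have hx : ∀ (m : ℕ) (b : Fin N × Fin N), ∃ T : Finset J, ∃ w ∈ D e (T : Set J),
      ‖w - u α b‖ ≤ ε m := by
    intro m b
    obtain ⟨T, w, hw, hwu⟩ := dense_D hgen (u α b) (hεpos m)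
    exact ⟨T, w, hw, by rw [norm_sub_rev]; exact hwu.le⟩
  choose Tx x hxD hxu using hx
  set T : ℕ → Finset J := fun m => (Finset.range (m + 1)).biUnion fun k =>
    Finset.univ.biUnion fun b => Tx k b with hT
  have hTmono : ∀ m, T m ⊆ T (m + 1) := fun m =>
    Finset.biUnion_subset_biUnion_of_subset_left _ (Finset.range_subset_range.mpr (by omega))
  have hxT : ∀ m b, x m b ∈ D e (T m : Set J) := fun m b => D_mono (by
    intro j hj
    simp only [hT, Finset.mem_coe, Finset.mem_biUnion, Finset.mem_range, Finset.mem_univ,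
      true_and]
    exact ⟨m, by omega, b, hj⟩) (hxD m b)
  set L : List J := ((T 0).filter (· ∉ M)).toList with hL
  set r : ℕ → List J := fun m => ((T (m + 1) \ T m).filter (· ∉ M)).toList with hr
  set rest : ℕ → List J := fun m => Nat.rec [] (fun k l => l ++ r k) m with hrest
  have hrest0 : rest 0 = [] := rfl
  have hrestS : ∀ m, rest (m + 1) = rest m ++ r m := fun m => rfl
  have hmemL : ∀ m j, j ∈ L ++ rest m ↔ j ∈ T m ∧ j ∉ M := by
    intro m
    induction m with
    | zero =>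
      intro j
      rw [hrest0, List.append_nil, hL, Finset.mem_toList, Finset.mem_filter]
    | succ m ih =>
      intro j
      rw [hrestS, ← List.append_assoc, List.mem_append, ih]
      simp only [hr, Finset.mem_toList, Finset.mem_filter, Finset.mem_sdiff]
      constructor
      · rintro (⟨h1, h2⟩ | ⟨⟨h1, _⟩, h2⟩)
        · exact ⟨hTmono m h1, h2⟩
        · exact ⟨h1, h2⟩
      · rintro ⟨h1, h2⟩
        by_cases h3 : j ∈ T m
        · exact Or.inl ⟨h3, h2⟩
        · exact Or.inr ⟨⟨h1, h3⟩, h2⟩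
  have hnodup : ∀ m, (L ++ rest m).Nodup := by
    intro m
    induction m with
    | zero =>
      rw [hrest0, List.append_nil]
      exact Finset.nodup_toList _
    | succ m ih =>
      rw [hrestS, ← List.append_assoc]
      refine List.Nodup.append ih (Finset.nodup_toList _) ?_
      intro j hj hj'
      have h1 := (hmemL m j).mp hj
      simp only [hr, Finset.mem_toList, Finset.mem_filter, Finset.mem_sdiff] at hj'
      exact hj'.1.2 h1.1
  set R : ℕ → List J := fun m => ((T m).filter (· ∈ M)).toList with hR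
  have hmemR : ∀ m j, j ∈ R m ↔ j ∈ T m ∧ j ∈ M := by
    intro m j
    rw [hR, Finset.mem_toList, Finset.mem_filter]
  have hTsub : ∀ m, (T m : Set J) ⊆ {j | j ∈ R m} ∪ {j | j ∈ L ++ rest m} := by
    intro m j hj
    by_cases h3 : j ∈ M
    · exact Or.inl ((hmemR m j).mpr ⟨hj, h3⟩)
    · exact Or.inr ((hmemL m j).mpr ⟨hj, h3⟩)
  have hLR : ∀ m, ∀ j ∈ L ++ rest m, j ∉ R m := fun m j hj hj' =>
    ((hmemL m j).mp hj).2 ((hmemR m j).mp hj').2
  have hxD' : ∀ m b, x m b ∈ D e ({j | j ∈ R m} ∪ {j | j ∈ L ++ rest m}) := fun m b =>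
    D_mono (hTsub m) (hxT m b)
  -- the twin
  have htwin : ∀ m, ∃ β, β ≠ α ∧ ∃ ℓ' : List J, (∀ j ∈ ℓ', j ∉ L ++ rest m) ∧
      (∀ j ∈ ℓ', j ∉ R m) ∧ ℓ'.map n = (L ++ rest m).map n ∧ ∃ x' : Fin N × Fin N → E,
      (∀ b, ‖x' b - u β b‖ ≤ ε m) ∧ ∀ b, prof n e ℓ' (x' b) = prof n e (L ++ rest m) (x m b) := by
    intro m
    have hover : ((m, R m, (L ++ rest m).map n, fun b => prof n e (L ++ rest m) (x m b)) :
        TyB (Fin N × Fin N) J E) ∈ OverB (Fin N × Fin N) e M := by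
      refine ⟨fun j hj => ((hmemR m j).mp hj).2, ?_⟩
      intro b c hc
      obtain ⟨f, hf, g, hg, rfl⟩ := mem_prof hc
      refine Sl_mem_D h _ (hnodup m) (fun j hj => ((hmemL m j).mp hj).2) ?_ f g hf hg
      refine D_mono ?_ (hxT m b)
      intro j hj
      by_cases h3 : j ∈ M
      · exact Or.inl h3
      · exact Or.inr ((hmemL m j).mpr ⟨hj, h3⟩)
    obtain ⟨β, hβ, t', ht', ℓ', h1, h2, h3, h4, x', hx', h5, h7⟩ :=
      hα _ hover {j | j ∈ L ++ rest m}
        (Set.disjoint_left.mpr fun j hj hjN => ((hmemL m j).mp hj).2 hjN)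
        ⟨L ++ rest m, hnodup m, rfl, hLR m, rfl, x m, hxD' m, hxu m, fun _ => rfl⟩
        {j | j ∈ L ++ rest m} (List.finite_toSet _)
    refine ⟨β, hβ, ℓ', ?_, h3, h4, x', h5, h7⟩
    intro j hj hj'
    rw [← h2] at ht'
    exact Set.disjoint_left.mp ht' hj hj'
  -- apply the core
  obtain ⟨Z, hZU, hZs, C, hC, hCcomm, hZC⟩ := coreB h σ hc L rest r hrest0 hrestS
    (fun b m => x m b) (fun b => u α b)
    (fun b => hF.star_e α b.1 b.2)
    (fun b m => hxu m b)
    (by
      have hrT : ∀ m, ∀ j ∈ r m, j ∉ (T m : Set J) := by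
        intro m j hj
        simp only [hr, Finset.mem_toList, Finset.mem_filter, Finset.mem_sdiff] at hj
        exact hj.1.2
      intro b m j hj a d
      exact commute_of_mem_D h (hxT m b) (hrT m j hj) a d)
    (by
      intro b b' m f hf g hg f' hf' g' hg'
      obtain ⟨β, hβ, ℓ', hdis, hℓ'R, hmap, x', hx', hpx⟩ := htwin m
      have hu1 : ∀ γ b, ‖u γ b‖ ≤ 1 := fun γ b => norm_unit_le hF γ b.1 b.2 b.1.2 b.2.2
      exact (stage h (hnodup m) (hLR m) hmap hdis hℓ'R (hxD' m b) (hxD' m b') (hpx b')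
          f g f' g' hf' hg').trans
        (norm_comm_le (hε1 m) (hu1 _ _) (hu1 _ _) (hxu m b) (hx' b')
          (hF.comm _ _ hβ.symm _ _ _ _).eq))
  have hAP : ApproxMU N δ Z := approxMU_of_close hF α (by positivity) hc1 hcδ Z
    (fun a b => hZs (a, b)) (fun a b => hZU (a, b))
  have hdv : N ∣ (L.map n).prod := transferMU h L C hC hCcomm hdvd Z hZC hAP
  have hpd : p ∣ (L.map n).prod := hpN.trans hdv
  obtain ⟨m, hm, hpm⟩ := (Prime.dvd_prod_iff hp.prime).mp hpd
  obtain ⟨j, hj, rfl⟩ := List.mem_map.mp hm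
  rw [hL, Finset.mem_toList, Finset.mem_filter] at hj
  exact hj.2 (hPM hpm)

end Pool.Agent.H891.UF
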