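import Pool.Agent.H891.UF.Core

/-! The embedding criterion for infinite powers and the cancellation theorem. -/

open Finset Cardinal Filter Topology Module

universe u

namespace Pool.Agent.H891.UF

open Pool.Agent.Helper741.UHF

theorem padic_prod' {J : Type*} {n : J → ℕ} {p : ℕ} (hp : p.Prime) (T : Finset J)
    (hT : ∀ j ∈ T, n j ≠ 0) :
    padicValNat p (∏ j ∈ T, n j) = ∑ j ∈ T, padicValNat p (n j) := by
  classical
  have := Fact.mk hp
  induction T using Finset.induction_on with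
  | empty => simp
  | insert a T ha ih =>
    rw [Finset.prod_insert ha, Finset.sum_insert ha, padicValNat.mul
      (hT a (Finset.mem_insert_self _ _))
      (Finset.prod_ne_zero_iff.mpr fun j hj => hT j (Finset.mem_insert_of_mem hj)),
      ih fun j hj => hT j (Finset.mem_insert_of_mem hj)]

/-- If an infinite family of commuting copies of `M_N` lives in the algebra, infinitely many
factors have size divisible by `p`. -/
theorem infinite_of_family (hH : S_HILB) (hU : S_UNITS.{u}) {J K E : Type u} [CStarAlgebra E]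
    [Nontrivial E] {n : J → ℕ} {e : J → ℕ → ℕ → E} (h : MUSys n e)
    (hgen : (Algebra.adjoin ℂ {x | ∃ j a b, x = e j a b}).topologicalClosure = ⊤)
    [Infinite K] {N : ℕ} {F : K → ℕ → ℕ → E} (hF : MUSys (fun _ => N) F) {p : ℕ}
    (hp : p.Prime) (hpN : p ∣ N) : {j | p ∣ n j}.Infinite := by
  classical
  intro hfin
  have := Fact.mk hp
  have hN : 0 < N := hF.pos (Classical.arbitrary K)
  set W := ∑ j ∈ hfin.toFinset, padicValNat p (n j) with hW
  obtain ⟨S, hS⟩ := Infinite.exists_subset_card_eq K (W + 1)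
  obtain ⟨e', he'⟩ := hU K PUnit E (fun _ => N) F hF (N ^ (W + 1)) (by positivity) (fun _ => S)
    (fun k l hkl => absurd (Subsingleton.elim k l) hkl)
    (fun _ => by rw [Finset.prod_const, hS])
  obtain ⟨T, hT⟩ := exists_dvdMU hH h hgen he' PUnit.unit
  have hpow : p ^ (W + 1) ∣ ∏ j ∈ T, n j := (pow_dvd_pow_of_dvd hpN _).trans hT
  have hne : ∏ j ∈ T, n j ≠ 0 := Finset.prod_ne_zero_iff.mpr fun j _ => (h.pos j).ne'
  have h1 := (padicValNat_dvd_iff_le (p := p) hne).mp hpow
  rw [padic_prod' hp T fun j _ => (h.pos j).ne'] at h1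
  have : ∑ j ∈ T, padicValNat p (n j) ≤ W := by
    rw [← Finset.sum_filter_add_sum_filter_not T (fun j => p ∣ n j)]
    have h0 : ∑ j ∈ T.filter (fun j => ¬ p ∣ n j), padicValNat p (n j) = 0 := by
      refine Finset.sum_eq_zero fun j hj => ?_
      exact padicValNat.eq_zero_of_not_dvd (Finset.mem_filter.mp hj).2
    rw [h0, add_zero]
    refine Finset.sum_le_sum_of_subset ?_
    intro j hj
    simpa using (Finset.mem_filter.mp hj).2
  omega

/-- Necessity in the criterion. -/
theorem le_of_embeds (hH : S_HILB) (hU : S_UNITS.{u}) {J K E C : Type u} [CStarAlgebra E]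
    [CStarAlgebra C] {n : J → ℕ} (hn : ∀ j, 0 < n j) [Infinite K] {N : ℕ} (hN : 0 < N)
    (hE : IsMatrixTensor n E) (hC : IsMatrixTensor (fun _ : K => N) C)
    (hφ : EmbedsUnitally C E) {p : ℕ} (hp : p.Prime) (hpN : p ∣ N) :
    #K ≤ #{j | p ∣ n j} := by
  obtain ⟨hEn, ι, hι, hιg⟩ := hE
  obtain ⟨_, κ, hκ, _⟩ := hC
  obtain ⟨φ, _⟩ := hφ
  have h := musys_unitsOf ι hn hι
  have hgen := adjoin_unitsOf ι hιg
  have hF := (musys_unitsOf κ (fun _ => hN) hκ).map φ
  have hinf := infinite_of_family hH hU h hgen hF hp hpN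
  refine mk_le_of_infinite' hH h hgen hF hp hpN ?_
  exact Cardinal.infinite_iff.mp hinf.to_subtype

/-- Sufficiency in the criterion. -/
theorem embeds_of_le (hCh : S_CHOICE.{u}) (hU : S_UNITS.{u}) {J K E C : Type u} [CStarAlgebra E]
    [CStarAlgebra C] {n : J → ℕ} (hn : ∀ j, 0 < n j) [Infinite K] {N : ℕ} (hN : 0 < N)
    (hE : IsMatrixTensor n E) (hC : IsMatrixTensor (fun _ : K => N) C)
    (hle : ∀ p : ℕ, p.Prime → p ∣ N → #K ≤ #{j | p ∣ n j}) : EmbedsUnitally C E := by
  classical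
  obtain ⟨hEn, ι, hι, hιg⟩ := hE
  obtain ⟨hCn, κ, hκ, hκg⟩ := hC
  have h := musys_unitsOf ι hn hι
  obtain ⟨φ, hφi, hφ⟩ := hCh K J N.primeFactorsList.length
    (fun s => {j | N.primeFactorsList.get s ∣ n j}) (fun s => by
      have hs : N.primeFactorsList.get s ∈ N.primeFactorsList := List.get_mem _ _
      exact hle _ (Nat.prime_of_mem_primeFactorsList hs) (Nat.dvd_of_mem_primeFactorsList hs))
  obtain ⟨e', he'⟩ := hU J K E n _ h N hN
    (fun α => Finset.univ.image fun s => φ (α, s)) (fun k l hkl => by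
      rw [Finset.disjoint_left]
      intro j hj hj'
      obtain ⟨s, _, hs⟩ := Finset.mem_image.mp hj
      obtain ⟨t, _, ht⟩ := Finset.mem_image.mp hj'
      have := hφi (hs.trans ht.symm)
      exact hkl (congrArg Prod.fst this)) (fun α => by
      rw [Finset.prod_image (fun s _ t _ hst => congrArg Prod.snd (hφi hst))]
      have h1 : ∏ s : Fin N.primeFactorsList.length, N.primeFactorsList.get s = N := by
        rw [← List.prod_ofFn]
        simp only [List.ofFn_get]
        exact Nat.prod_primeFactorsList hN.ne'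
      calc N = ∏ s : Fin N.primeFactorsList.length, N.primeFactorsList.get s := h1.symm
        _ ∣ _ := Finset.prod_dvd_prod_of_dvd _ _ fun s _ => hφ α s)
  obtain ⟨ψ, hψ, _⟩ := exists_embedding (musys_unitsOf κ (fun _ => hN) hκ) he'
    (adjoin_unitsOf κ hκg)
  exact ⟨ψ, hψ⟩

theorem embeds_iff_inf (hH : S_HILB) (hCh : S_CHOICE.{u}) (hU : S_UNITS.{u}) {J K E C : Type u}
    [CStarAlgebra E] [CStarAlgebra C] {n : J → ℕ} (hn : ∀ j, 0 < n j) [Infinite K] {N : ℕ}
    (hN : 0 < N) (hE : IsMatrixTensor n E) (hC : IsMatrixTensor (fun _ : K => N) C) :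
    EmbedsUnitally C E ↔ ∀ p : ℕ, p.Prime → p ∣ N → #K ≤ #{j | p ∣ n j} :=
  ⟨fun h _ hp hpN => le_of_embeds hH hU hn hN hE hC h hp hpN,
    fun h => embeds_of_le hCh hU hn hN hE hC h⟩

theorem mk_sum_dvd_le {I K : Type u} (m : I → ℕ) (k : K → ℕ) (p : ℕ) :
    #{j : I ⊕ K | p ∣ Sum.elim m k j} ≤ #{i | p ∣ m i} + #K := by
  rw [add_def]
  refine mk_le_of_injective (f := fun j : {j : I ⊕ K | p ∣ Sum.elim m k j} =>
    (match j with
      | ⟨Sum.inl i, hi⟩ => Sum.inl ⟨i, hi⟩
      | ⟨Sum.inr l, _⟩ => Sum.inr l : {i | p ∣ m i} ⊕ K)) ?_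
  rintro ⟨i | k, hi⟩ ⟨i' | k', hi'⟩ h
  · simp only [Sum.inl.injEq] at h
    have h' : i = i' := congrArg Subtype.val h
    subst h'
    rfl
  · simp at h
  · simp at h
  · simp only [Sum.inr.injEq] at h
    subst h
    rfl

/-- The cancellation theorem. -/
theorem cancel (hH : S_HILB) (hCh : S_CHOICE.{u}) (hU : S_UNITS.{u}) {I K K' A B B' E : Type u}
    [CStarAlgebra A] [CStarAlgebra B] [CStarAlgebra B'] [CStarAlgebra E] {m : I → ℕ}
    (hm : ∀ i, 0 < m i) {k : K → ℕ} (hk : ∀ i, 0 < k i) {N : ℕ} (hN : 0 < N) (hlt : #K < #K')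
    [Infinite K'] (hA : IsMatrixTensor m A) (hB : IsMatrixTensor k B)
    (hB' : IsMatrixTensor (fun _ : K' => N) B') (hE : IsCStarTensor A B E)
    (hemb : EmbedsUnitally B' E) : EmbedsUnitally B' A := by
  rw [embeds_iff_inf hH hCh hU hm hN hA hB']
  intro p hp hpN
  have hpos : ∀ j : I ⊕ K, 0 < Sum.elim m k j := by
    rintro (i | i)
    · exact hm i
    · exact hk i
  have h1 := (embeds_iff_inf hH hCh hU hpos hN (isMatrixTensor_sum hA hB hE) hB').mp hemb p hp hpN
  exact card_infinite hlt (aleph0_le_mk K') (h1.trans (mk_sum_dvd_le m k p))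

end Pool.Agent.H891.UF
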