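import Pool.Agent.H891.UF.Stm

/-! Piece HILB: approximate matrix units on a finite-dimensional Hilbert space. -/

open Finset Module

namespace Pool.Agent.H891.UF

namespace Hilb

open Pool.Agent.Helper741.UHF

section cstar

variable {A : Type*} [CStarAlgebra A] {N : ℕ} {δ : ℝ} {x : Fin N × Fin N → A}

theorem norm_diag_le (h : ApproxMU N δ x) (hδ0 : 0 ≤ δ) (a : Fin N) : ‖x (a, a)‖ ≤ 1 + δ := by
  have h1 : ‖x (a, a)‖ * ‖x (a, a)‖ ≤ ‖x (a, a)‖ + δ := by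
    have h2 := CStarRing.norm_star_mul_self (x := x (a, a))
    rw [h.star_x] at h2
    rw [← h2]
    calc ‖x (a, a) * x (a, a)‖ = ‖x (a, a) + (x (a, a) * x (a, a) - x (a, a))‖ := by
          congr 1; abel
      _ ≤ ‖x (a, a)‖ + ‖x (a, a) * x (a, a) - x (a, a)‖ := norm_add_le _ _
      _ ≤ ‖x (a, a)‖ + δ := by gcongr; exact h.mul_same a a a
  by_contra hcon
  push Not at hcon
  nlinarith [norm_nonneg (x (a, a))]

theorem norm_x_le (h : ApproxMU N δ x) (hδ0 : 0 ≤ δ) (hδ : δ ≤ 1) (a b : Fin N) :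
    ‖x (a, b)‖ ≤ 2 := by
  have h1 : ‖x (a, b)‖ * ‖x (a, b)‖ ≤ 1 + δ + δ := by
    have h2 := CStarRing.norm_star_mul_self (x := x (a, b))
    rw [h.star_x] at h2
    rw [← h2]
    calc ‖x (b, a) * x (a, b)‖ = ‖x (b, b) + (x (b, a) * x (a, b) - x (b, b))‖ := by
          congr 1; abel
      _ ≤ ‖x (b, b)‖ + ‖x (b, a) * x (a, b) - x (b, b)‖ := norm_add_le _ _
      _ ≤ 1 + δ + δ := by
          gcongr
          · exact norm_diag_le h hδ0 b
          · exact h.mul_same b a b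
  by_contra hcon
  push Not at hcon
  nlinarith [norm_nonneg (x (a, b))]

theorem exists_proj (h : ApproxMU N δ x) (hδ0 : 0 ≤ δ) (hδ : 4 * δ ≤ 1 / 10) (a : Fin N) :
    ∃ P : A, IsStarProjection P ∧ ‖P - x (a, a)‖ ≤ 2 * δ := by
  have hsa : IsSelfAdjoint (x (a, a)) := h.star_x a a
  have hX : IsSelfAdjoint ((2 : ℝ) • x (a, a) - 1) := by
    refine IsSelfAdjoint.sub ?_ (IsSelfAdjoint.one A)
    exact IsSelfAdjoint.smul (by rfl) hsa
  have hXX : ‖((2 : ℝ) • x (a, a) - 1) * ((2 : ℝ) • x (a, a) - 1) - 1‖ ≤ 4 * δ := by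
    have e : ((2 : ℝ) • x (a, a) - 1) * ((2 : ℝ) • x (a, a) - 1) - 1 =
        (4 : ℝ) • (x (a, a) * x (a, a) - x (a, a)) := by
      simp only [mul_sub, sub_mul, mul_one, one_mul, smul_mul_assoc, mul_smul_comm, smul_sub,
        smul_smul]
      module
    rw [e, norm_smul]
    have := h.mul_same a a a
    rw [Real.norm_eq_abs, abs_of_pos (by norm_num : (0 : ℝ) < 4)]
    linarith
  obtain ⟨P, hP, hPX⟩ := exists_projection hX (by linarith) hδ hXX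
  refine ⟨P, hP, ?_⟩
  have e2 : (1 / 2 : ℝ) • (1 + ((2 : ℝ) • x (a, a) - 1)) = x (a, a) := by
    module
  rw [e2] at hPX
  linarith

theorem norm_three (a b c : A) {p q r : ℝ} (ha : ‖a‖ ≤ p) (hb : ‖b‖ ≤ q) (hc : ‖c‖ ≤ r) :
    ‖a * b * c‖ ≤ p * q * r := by
  have hp : 0 ≤ p := (norm_nonneg _).trans ha
  have hq : 0 ≤ q := (norm_nonneg _).trans hb
  calc ‖a * b * c‖ ≤ ‖a * b‖ * ‖c‖ := norm_mul_le _ _
    _ ≤ (‖a‖ * ‖b‖) * ‖c‖ := by gcongr; exact norm_mul_le _ _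
    _ ≤ (p * q) * r := by gcongr

theorem conj_bound (h : ApproxMU N δ x) (hδ0 : 0 ≤ δ) (hδ : δ ≤ 1) (a b : Fin N) {P Q : A}
    (hP : ‖P - x (a, a)‖ ≤ 2 * δ) (hQ : ‖Q - x (b, b)‖ ≤ 2 * δ) :
    ‖x (a, b) * Q * x (b, a) - P‖ ≤ 13 * δ := by
  have e : x (a, b) * Q * x (b, a) - P = x (a, b) * (Q - x (b, b)) * x (b, a) +
      (x (a, b) * x (b, b) - x (a, b)) * x (b, a) + (x (a, b) * x (b, a) - x (a, a)) -
      (P - x (a, a)) := by
    noncomm_ring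
  rw [e]
  have h1 : ‖x (a, b) * (Q - x (b, b)) * x (b, a)‖ ≤ 2 * (2 * δ) * 2 :=
    norm_three _ _ _ (norm_x_le h hδ0 hδ _ _) hQ (norm_x_le h hδ0 hδ _ _)
  have h2 : ‖(x (a, b) * x (b, b) - x (a, b)) * x (b, a)‖ ≤ δ * 2 :=
    (norm_mul_le _ _).trans (mul_le_mul (h.mul_same a b b) (norm_x_le h hδ0 hδ _ _)
      (norm_nonneg _) hδ0)
  have h3 := h.mul_same a b a
  calc _ ≤ ‖x (a, b) * (Q - x (b, b)) * x (b, a) +
      (x (a, b) * x (b, b) - x (a, b)) * x (b, a) + (x (a, b) * x (b, a) - x (a, a))‖ +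
      ‖P - x (a, a)‖ := norm_sub_le _ _
    _ ≤ ‖x (a, b) * (Q - x (b, b)) * x (b, a)‖ +
      ‖(x (a, b) * x (b, b) - x (a, b)) * x (b, a)‖ + ‖x (a, b) * x (b, a) - x (a, a)‖ +
      ‖P - x (a, a)‖ := by
        gcongr
        exact norm_add₃_le
    _ ≤ 13 * δ := by linarith

theorem ortho_bound (h : ApproxMU N δ x) (hδ0 : 0 ≤ δ) (hδ : δ ≤ 1) {a b : Fin N} (hab : b ≠ a)
    {P Q : A} (hPp : IsStarProjection P)
    (hP : ‖P - x (a, a)‖ ≤ 2 * δ) (hQ : ‖Q - x (b, b)‖ ≤ 2 * δ) :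
    ‖Q * P‖ ≤ 7 * δ := by
  have e : Q * P = (Q - x (b, b)) * P + x (b, b) * (P - x (a, a)) + x (b, b) * x (a, a) := by
    noncomm_ring
  rw [e]
  have h1 : ‖(Q - x (b, b)) * P‖ ≤ 2 * δ * 1 :=
    (norm_mul_le _ _).trans (mul_le_mul hQ (norm_proj_le_one hPp) (norm_nonneg _) (by positivity))
  have h2 : ‖x (b, b) * (P - x (a, a))‖ ≤ 2 * (2 * δ) :=
    (norm_mul_le _ _).trans (mul_le_mul (norm_x_le h hδ0 hδ _ _) hP (norm_nonneg _) (by norm_num))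
  have h3 := h.mul_ne b b a a hab
  calc _ ≤ ‖(Q - x (b, b)) * P‖ + ‖x (b, b) * (P - x (a, a))‖ + ‖x (b, b) * x (a, a)‖ :=
        norm_add₃_le
    _ ≤ 7 * δ := by linarith

theorem sum_bound (h : ApproxMU N δ x) {P : Fin N → A} (hP : ∀ a, ‖P a - x (a, a)‖ ≤ 2 * δ) :
    ‖1 - ∑ a, P a‖ ≤ δ + N * (2 * δ) := by
  have e : 1 - ∑ a, P a = -(∑ a, x (a, a) - 1) - ∑ a, (P a - x (a, a)) := by
    rw [Finset.sum_sub_distrib]
    abel
  rw [e]
  calc _ ≤ ‖-(∑ a, x (a, a) - 1)‖ + ‖∑ a, (P a - x (a, a))‖ := norm_sub_le _ _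
    _ ≤ δ + ∑ a : Fin N, 2 * δ := by
        rw [norm_neg]
        gcongr
        · exact h.sum_diag
        · exact (norm_sum_le _ _).trans (Finset.sum_le_sum fun a _ => hP a)
    _ = δ + N * (2 * δ) := by
        rw [Finset.sum_const, Finset.card_univ, Fintype.card_fin, nsmul_eq_mul]

end cstar

section hilbert

variable {H : Type} [NormedAddCommGroup H] [InnerProductSpace ℂ H] [FiniteDimensional ℂ H]

theorem zero_of_bound {T : H →L[ℂ] H} {c : ℝ} (hc : c < 1) (hT : ‖T‖ ≤ c) {ξ : H}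
    (h : T ξ = ξ ∨ T ξ = -ξ) : ξ = 0 := by
  have h1 : ‖T ξ‖ ≤ c * ‖ξ‖ := (T.le_opNorm ξ).trans (by gcongr)
  have h2 : ‖T ξ‖ = ‖ξ‖ := by
    rcases h with h | h
    · rw [h]
    · rw [h, norm_neg]
  rw [h2] at h1
  have h3 : ‖ξ‖ = 0 := by
    nlinarith [norm_nonneg ξ]
  exact norm_eq_zero.1 h3

theorem proj_apply {P : H →L[ℂ] H} (hP : IsStarProjection P) {ξ : H}
    (h : ξ ∈ LinearMap.range (P : H →ₗ[ℂ] H)) : P ξ = ξ := by
  obtain ⟨η, rfl⟩ := h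
  have := congrArg (fun T : H →L[ℂ] H => T η) hP.isIdempotentElem.eq
  simpa using this

/-- a linear map from `range P` to `range Q` -/
theorem rank_le {P Q Y Z : H →L[ℂ] H} (hP : IsStarProjection P) {c : ℝ} (hc : c < 1)
    (h : ‖Z * Q * Y - P‖ ≤ c) :
    finrank ℂ (LinearMap.range (P : H →ₗ[ℂ] H)) ≤ finrank ℂ (LinearMap.range (Q : H →ₗ[ℂ] H)) := by
  let φ : LinearMap.range (P : H →ₗ[ℂ] H) →ₗ[ℂ] LinearMap.range (Q : H →ₗ[ℂ] H) :=
    (((Q : H →ₗ[ℂ] H).rangeRestrict).comp (Y : H →ₗ[ℂ] H)).comp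
      (LinearMap.range (P : H →ₗ[ℂ] H)).subtype
  refine LinearMap.finrank_le_finrank_of_injective (f := φ) ?_
  rw [← LinearMap.ker_eq_bot, LinearMap.ker_eq_bot']
  intro ξ hξ
  have h0 : Q (Y ξ) = 0 := congrArg Subtype.val hξ
  have h1 : (Z * Q * Y - P) (ξ : H) = -(ξ : H) := by
    have h2 : (Z * Q * Y) (ξ : H) = Z (Q (Y ξ)) := rfl
    rw [ContinuousLinearMap.sub_apply, h2, h0, map_zero, proj_apply hP ξ.2, zero_sub]
  exact Subtype.ext (zero_of_bound hc h (Or.inr h1))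

theorem dim_le {N : ℕ} {P : Fin N → (H →L[ℂ] H)} {c : ℝ} (hc : c < 1) (h : ‖1 - ∑ a, P a‖ ≤ c) :
    finrank ℂ H ≤ ∑ a, finrank ℂ (LinearMap.range (P a : H →ₗ[ℂ] H)) := by
  rw [← Module.finrank_pi_fintype]
  let ψ : H →ₗ[ℂ] (∀ a, LinearMap.range (P a : H →ₗ[ℂ] H)) :=
    LinearMap.pi fun a => (P a : H →ₗ[ℂ] H).rangeRestrict
  refine LinearMap.finrank_le_finrank_of_injective (f := ψ) ?_
  rw [← LinearMap.ker_eq_bot, LinearMap.ker_eq_bot']
  intro ξ hξ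
  have h0 : ∀ a, P a ξ = 0 := fun a => congrArg Subtype.val (congrFun hξ a)
  refine zero_of_bound hc h (Or.inl ?_)
  rw [ContinuousLinearMap.sub_apply, ContinuousLinearMap.sum_apply,
    Finset.sum_eq_zero fun a _ => h0 a, sub_zero]
  rfl

theorem le_dim {N : ℕ} {P : Fin N → (H →L[ℂ] H)} {c : ℝ} (hP : ∀ a, IsStarProjection (P a))
    (hc0 : 0 ≤ c) (hc : N * c < 1) (h : ∀ a b, b ≠ a → ‖P b * P a‖ ≤ c) :
    ∑ a, finrank ℂ (LinearMap.range (P a : H →ₗ[ℂ] H)) ≤ finrank ℂ H := by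
  classical
  rw [← Module.finrank_pi_fintype]
  let χ : (∀ a, LinearMap.range (P a : H →ₗ[ℂ] H)) →ₗ[ℂ] H :=
    ∑ a, (LinearMap.range (P a : H →ₗ[ℂ] H)).subtype.comp (LinearMap.proj a)
  refine LinearMap.finrank_le_finrank_of_injective (f := χ) ?_
  rw [← LinearMap.ker_eq_bot, LinearMap.ker_eq_bot']
  intro ξ hξ
  have h0 : ∑ a, ((ξ a : LinearMap.range (P a : H →ₗ[ℂ] H)) : H) = 0 := by
    have : χ ξ = ∑ a, ((ξ a : LinearMap.range (P a : H →ₗ[ℂ] H)) : H) := by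
      simp only [χ, LinearMap.sum_apply]
      rfl
    rw [← this]
    exact hξ
  have h1 : ∀ b, ‖(ξ b : H)‖ ≤ c * ∑ a, ‖(ξ a : H)‖ := by
    intro b
    have e1 : (ξ b : H) = - ∑ a ∈ univ.erase b, P b (ξ a : H) := by
      have h2 : P b (∑ a, ((ξ a : LinearMap.range (P a : H →ₗ[ℂ] H)) : H)) = 0 := by
        rw [h0, map_zero]
      rw [map_sum, ← Finset.add_sum_erase _ _ (Finset.mem_univ b),
        proj_apply (hP b) (ξ b).2] at h2
      exact eq_neg_of_add_eq_zero_left h2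
    calc ‖(ξ b : H)‖ = ‖∑ a ∈ univ.erase b, P b (ξ a : H)‖ := by
          conv_lhs => rw [e1]
          rw [norm_neg]
      _ ≤ ∑ a ∈ univ.erase b, ‖P b (ξ a : H)‖ := norm_sum_le _ _
      _ ≤ ∑ a ∈ univ.erase b, c * ‖(ξ a : H)‖ := by
          refine Finset.sum_le_sum fun a ha => ?_
          have h3 : P b (ξ a : H) = (P b * P a) (ξ a : H) := by
            show _ = P b (P a (ξ a : H))
            rw [proj_apply (hP a) (ξ a).2]
          rw [h3]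
          refine ((P b * P a).le_opNorm _).trans ?_
          gcongr
          exact h a b (Finset.ne_of_mem_erase ha).symm
      _ ≤ ∑ a, c * ‖(ξ a : H)‖ := by
          refine Finset.sum_le_sum_of_subset_of_nonneg (Finset.erase_subset _ _) ?_
          intro i _ _
          positivity
      _ = c * ∑ a, ‖(ξ a : H)‖ := by rw [Finset.mul_sum]
  have h2 : ∑ b, ‖(ξ b : H)‖ ≤ N * (c * ∑ a, ‖(ξ a : H)‖) := by
    calc ∑ b, ‖(ξ b : H)‖ ≤ ∑ b : Fin N, c * ∑ a, ‖(ξ a : H)‖ :=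
          Finset.sum_le_sum fun b _ => h1 b
      _ = _ := by rw [Finset.sum_const, Finset.card_univ, Fintype.card_fin, nsmul_eq_mul]
  have h3 : 0 ≤ ∑ b, ‖(ξ b : H)‖ := Finset.sum_nonneg fun _ _ => norm_nonneg _
  have h4 : ∑ b, ‖(ξ b : H)‖ = 0 := by nlinarith
  funext b
  apply Subtype.ext
  have h5 : ‖(ξ b : H)‖ = 0 :=
    (Finset.sum_eq_zero_iff_of_nonneg (fun _ _ => norm_nonneg _)).1 h4 b (Finset.mem_univ b)
  exact norm_eq_zero.1 h5

end hilbert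

end Hilb

open Hilb in
theorem t_HILB : S_HILB := by
  intro N hN
  have hN' : (0 : ℝ) < N := by exact_mod_cast hN
  have hN1 : (1 : ℝ) ≤ N := by exact_mod_cast hN
  refine ⟨1 / (1000 * N), by positivity, ?_⟩
  intro H _ _ _ x h
  set δ : ℝ := 1 / (1000 * N) with hδdef
  have hδ0 : 0 < δ := by positivity
  have hNδ : N * δ = 1 / 1000 := by
    rw [hδdef]
    field_simp
  have hδ1 : δ ≤ 1 / 1000 := by nlinarith
  choose P hP hPx using fun a => exists_proj h hδ0.le (by linarith) a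
  have hrank : ∀ a b, finrank ℂ (LinearMap.range (P a : H →ₗ[ℂ] H)) ≤
      finrank ℂ (LinearMap.range (P b : H →ₗ[ℂ] H)) := fun a b =>
    rank_le (hP a) (c := 13 * δ) (by linarith)
      (conj_bound h hδ0.le (by linarith) a b (hPx a) (hPx b))
  have h1 := dim_le (c := δ + N * (2 * δ)) (by linarith) (sum_bound h hPx)
  have h2 := le_dim hP (c := 7 * δ) (by positivity) (by linarith)
    (fun a b hab => ortho_bound h hδ0.le (by linarith) hab (hP a) (hPx a) (hPx b))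
  have h3 : finrank ℂ H = ∑ a, finrank ℂ (LinearMap.range (P a : H →ₗ[ℂ] H)) := le_antisymm h1 h2
  rw [h3, Finset.sum_congr rfl (fun a _ => le_antisymm (hrank a ⟨0, hN⟩) (hrank ⟨0, hN⟩ a)),
    Finset.sum_const, Finset.card_univ, Fintype.card_fin, smul_eq_mul]
  exact Dvd.intro _ rfl

end Pool.Agent.H891.UF
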