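import Pool.Agent.Helper741.UHF.Exist

/-! Interface statements for the general-size version of the embedding criterion. -/

open Finset Cardinal Module

universe u

namespace Pool.Agent.H891.UF

open Pool.Agent.Helper741.UHF

/-- Approximate `N × N` matrix units (with exact adjoint relations) in a C*-algebra. -/
structure ApproxMU {A : Type*} [CStarAlgebra A] (N : ℕ) (δ : ℝ) (x : Fin N × Fin N → A) :
    Prop where
  star_x : ∀ a b, star (x (a, b)) = x (b, a)
  mul_same : ∀ a b c, ‖x (a, b) * x (b, c) - x (a, c)‖ ≤ δ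
  mul_ne : ∀ a b c d, b ≠ c → ‖x (a, b) * x (c, d)‖ ≤ δ
  sum_diag : ‖∑ a, x (a, a) - 1‖ ≤ δ

/-- Sufficiently good approximate `N × N` matrix units on a finite-dimensional Hilbert space force
`N` to divide the dimension. -/
def S_HILB : Prop :=
  ∀ N : ℕ, 0 < N → ∃ δ : ℝ, 0 < δ ∧ ∀ (H : Type) [NormedAddCommGroup H]
    [InnerProductSpace ℂ H] [FiniteDimensional ℂ H] (x : Fin N × Fin N → (H →L[ℂ] H)),
    ApproxMU N δ x → N ∣ finrank ℂ H

/-- Simultaneous injective choice from finitely many large sets. -/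
def S_CHOICE : Prop :=
  ∀ (K I : Type u) [Infinite K] (k : ℕ) (S : Fin k → Set I), (∀ s, #K ≤ #(S s)) →
    ∃ φ : K × Fin k → I, Function.Injective φ ∧ ∀ α s, φ (α, s) ∈ S s

/-- Grouping matrix units: products over disjoint finite sets of sites followed by block sums. -/
def S_UNITS : Prop :=
  ∀ (J K E : Type u) [CStarAlgebra E] (m : J → ℕ) (e : J → ℕ → ℕ → E), MUSys m e →
    ∀ N : ℕ, 0 < N → ∀ F : K → Finset J, (∀ k l, k ≠ l → Disjoint (F k) (F l)) →
      (∀ k, N ∣ ∏ j ∈ F k, m j) → ∃ e' : K → ℕ → ℕ → E, MUSys (fun _ => N) e'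

end Pool.Agent.H891.UF
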