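import Pool.Agent.H891.UF.Stm

/-! Transfer of approximate matrix units and the finite case. -/

open Finset Cardinal Filter Topology Module

universe u

namespace Pool.Agent.H891.UF

open Pool.Agent.Helper741.UHF

/-- The Hilbert space statement for one size and one tolerance. -/
def HilbAt (N : ℕ) (δ : ℝ) : Prop :=
  ∀ (H : Type) [NormedAddCommGroup H] [InnerProductSpace ℂ H] [FiniteDimensional ℂ H]
    (x : Fin N × Fin N → (H →L[ℂ] H)), ApproxMU N δ x → N ∣ finrank ℂ H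

section one

variable {J : Type*} {E : Type*} [CStarAlgebra E] {n : J → ℕ} {e : J → ℕ → ℕ → E}

theorem transferMU [Nontrivial E] (h : MUSys n e) (ℓ : List J) (C : StarSubalgebra ℂ E)
    (hC : IsClosed (C : Set E)) (hcomm : ∀ x ∈ C, ∀ y ∈ C, x * y = y * x) {N : ℕ} {δ : ℝ}
    (hδ : HilbAt N δ)
    (x : Fin N × Fin N → E) (hx : ∀ i, x i ∈ sliceAlg h ℓ C)
    (hA : ApproxMU N δ x) : N ∣ (ℓ.map n).prod := by
  obtain ⟨χ⟩ := exists_character C hC hcomm
  have hn := norm_opRep_le h ℓ C hC χ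
  let X : Fin N × Fin N → sliceAlg h ℓ C := fun i => ⟨x i, hx i⟩
  have key : ∀ z : sliceAlg h ℓ C, ‖(z : E)‖ ≤ δ → ‖opRep h ℓ C χ z‖ ≤ δ :=
    fun z hz => (hn z).trans hz
  have hAP : ApproxMU N δ (fun i => opRep h ℓ C χ (X i)) := by
    refine ⟨fun a b => ?_, fun a b c => ?_, fun a b c d hbc => ?_, ?_⟩
    · rw [← map_star]
      exact congrArg _ (Subtype.ext (hA.star_x a b))
    · rw [← map_mul, ← map_sub]
      exact key _ (hA.mul_same a b c)
    · rw [← map_mul]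
      exact key _ (hA.mul_ne a b c d hbc)
    · rw [← map_sum, ← map_one (opRep h ℓ C χ), ← map_sub]
      refine key _ ?_
      have h1 : ((∑ a, X (a, a) - 1 : sliceAlg h ℓ C) : E) = ∑ a, x (a, a) - 1 := by
        simp [X]
      rw [h1]
      exact hA.sum_diag
  have := hδ _ _ hAP
  rwa [finrank_euclideanSpace, Fintype.card_coe, card_idx] at this

theorem norm_unit_le {N : ℕ} {Λ : Type*} {F : Λ → ℕ → ℕ → E} (hF : MUSys (fun _ => N) F) (α : Λ)
    (a b : ℕ) (ha : a < N) (hb : b < N) : ‖F α a b‖ ≤ 1 := by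
  have hp : IsStarProjection (F α b b) :=
    ⟨hF.mul_same α b b b hb, hF.star_e α b b⟩
  have h1 := norm_proj_le_one hp
  have h2 : ‖F α a b‖ * ‖F α a b‖ = ‖F α b b‖ := by
    rw [← CStarRing.norm_star_mul_self (x := F α a b), hF.star_e, hF.mul_same α b a b ha]
  nlinarith [norm_nonneg (F α a b)]

theorem approxMU_of_close {N : ℕ} {Λ : Type*} {F : Λ → ℕ → ℕ → E} (hF : MUSys (fun _ => N) F)
    (α : Λ) {η δ : ℝ} (hη0 : 0 ≤ η) (hη1 : η ≤ 1) (hηδ : (N + 4) * η ≤ δ)
    (x : Fin N × Fin N → E)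
    (hs : ∀ a b, star (x (a, b)) = x (b, a)) (hx : ∀ a b : Fin N, ‖x (a, b) - F α a b‖ ≤ η) :
    ApproxMU N δ x := by
  have hn : ∀ a b : Fin N, ‖F α a b‖ ≤ 1 := fun a b => norm_unit_le hF α a b a.2 b.2
  have h4 : 4 * η ≤ δ := by nlinarith [(Nat.cast_nonneg N : (0 : ℝ) ≤ N)]
  have hN : N * η ≤ δ := by nlinarith [(Nat.cast_nonneg N : (0 : ℝ) ≤ N)]
  refine ⟨hs, fun a b c => ?_, fun a b c d hbc => ?_, ?_⟩
  · have h1 := norm_prod_sub_le hη1 (hn a b) (hn b c) (hx a b) (hx b c)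
    rw [hF.mul_same α a b c b.2] at h1
    have h2 := hx a c
    calc ‖x (a, b) * x (b, c) - x (a, c)‖
        = ‖(x (a, b) * x (b, c) - F α a c) - (x (a, c) - F α a c)‖ := by congr 1; abel
      _ ≤ 3 * η + η := (norm_sub_le _ _).trans (add_le_add h1 h2)
      _ ≤ δ := by linarith
  · have h1 := norm_prod_sub_le hη1 (hn a b) (hn c d) (hx a b) (hx c d)
    rw [hF.mul_ne α a b c d (fun hh => hbc (Fin.ext hh)), sub_zero] at h1
    linarith
  · have h1 : ∑ a : Fin N, x (a, a) - 1 = ∑ a : Fin N, (x (a, a) - F α a a) := by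
      rw [Finset.sum_sub_distrib]
      congr 1
      rw [← hF.one α, Finset.sum_range]
    rw [h1]
    calc _ ≤ ∑ a : Fin N, ‖x (a, a) - F α a a‖ := norm_sum_le _ _
      _ ≤ ∑ _a : Fin N, η := Finset.sum_le_sum fun a _ => hx a a
      _ = N * η := by simp
      _ ≤ δ := hN

/-- symmetrisation -/
theorem norm_symm_sub_le {x y u v : E} {η : ℝ} (hu : star v = u) (hx : ‖x - u‖ ≤ η)
    (hy : ‖y - v‖ ≤ η) : ‖(1 / 2 : ℂ) • (x + star y) - u‖ ≤ η := by
  have h1 : (1 / 2 : ℂ) • (x + star y) - u = (1 / 2 : ℂ) • ((x - u) + star (y - v)) := by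
    rw [star_sub, hu]
    have : u = (1 / 2 : ℂ) • (u + u) := by
      rw [← two_smul ℂ u, smul_smul]
      norm_num
    nth_rewrite 1 [this]
    rw [← smul_sub]
    congr 1
    abel
  rw [h1, norm_smul]
  have h2 : ‖(x - u) + star (y - v)‖ ≤ η + η :=
    (norm_add_le _ _).trans (add_le_add hx (by rwa [norm_star]))
  have h3 : ‖(1 / 2 : ℂ)‖ = 1 / 2 := by norm_num
  rw [h3]
  linarith

end one

variable {J E : Type u} [CStarAlgebra E] {n : J → ℕ} {e : J → ℕ → ℕ → E}

/-- A unital copy of `M_N` forces `N` to divide a finite product of the sizes. -/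
theorem exists_dvdMU [Nontrivial E] (hH : S_HILB) (h : MUSys n e)
    (hgen : (Algebra.adjoin ℂ {x | ∃ j a b, x = e j a b}).topologicalClosure = ⊤)
    {Λ : Type*} {N : ℕ} {F : Λ → ℕ → ℕ → E} (hF : MUSys (fun _ => N) F) (α : Λ) :
    ∃ T : Finset J, N ∣ ∏ j ∈ T, n j := by
  classical
  have hN : 0 < N := hF.pos α
  obtain ⟨δ, hδ, hdvd⟩ := hH N hN
  set η := min 1 (δ / (N + 4)) with hη
  have hN4 : (0 : ℝ) < N + 4 := by positivity
  have hη0 : 0 < η := by positivity
  have hη1 : η ≤ 1 := min_le_left _ _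
  have hηδ : (N + 4) * η ≤ δ := by
    have h1 := min_le_right 1 (δ / (N + 4))
    rw [← hη] at h1
    have h2 := (le_div_iff₀ hN4).mp h1
    linarith
  have hx : ∀ i : Fin N × Fin N, ∃ T : Finset J, ∃ w ∈ D e (T : Set J), ‖w - F α i.1 i.2‖ ≤ η := by
    intro i
    obtain ⟨T, w, hw, hwu⟩ := dense_D hgen (F α i.1 i.2) hη0
    exact ⟨T, w, hw, by rw [norm_sub_rev]; exact hwu.le⟩
  choose Tx x hxD hxu using hx
  set T : Finset J := Finset.univ.biUnion Tx with hT
  set ℓ := T.toList with hℓ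
  let C : StarSubalgebra ℂ E := StarSubalgebra.centralizer ℂ Set.univ
  have hCmem : ∀ z, z ∈ C ↔ ∀ g, g * z = z * g := by
    intro z
    rw [StarSubalgebra.mem_centralizer_iff]
    exact ⟨fun hz g => (hz g trivial).1, fun hz g _ => ⟨hz g, hz _⟩⟩
  have hC : IsClosed (C : Set E) := Set.isClosed_centralizer _
  have hcomm : ∀ x ∈ C, ∀ y ∈ C, x * y = y * x := fun x _ y hy => (hCmem y).mp hy x
  have hD0 : ∀ w ∈ D e (∅ : Set J), w ∈ C := by
    intro w hw
    refine D_induction (e := e) (N := ∅) (p := fun w => w ∈ C) ?_ ?_ ?_ ?_ hw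
    · intro j hj
      exact absurd hj (Set.notMem_empty j)
    · intro c
      exact algebraMap_mem C c
    · exact fun x y hx hy => add_mem hx hy
    · exact fun x y hx hy => mul_mem hx hy
  have hsl : ∀ w ∈ D e (T : Set J), w ∈ sliceAlg h ℓ C := by
    intro w hw f hf g hg
    refine hD0 _ (Sl_mem_D h ℓ (Finset.nodup_toList T) (fun j _ => Set.notMem_empty j) ?_
      f g hf hg)
    refine D_mono ?_ hw
    intro j hj
    exact Or.inr (by simpa [hℓ] using hj)
  have hxS : ∀ i, x i ∈ sliceAlg h ℓ C := fun i => hsl _ (D_mono (by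
    intro j hj
    rw [hT]
    simp only [coe_biUnion, coe_univ, Set.mem_univ, Set.iUnion_true, Set.mem_iUnion]
    exact ⟨i, hj⟩) (hxD i))
  have hAP : ApproxMU N δ (fun i => (1 / 2 : ℂ) • (x i + star (x (i.2, i.1)))) := by
    refine approxMU_of_close hF α hη0.le hη1 hηδ _ (fun a b => ?_) (fun a b => ?_)
    · rw [star_smul, star_add, star_star]
      congr 1
      · simp
      · exact add_comm _ _
    · exact norm_symm_sub_le (hF.star_e α b a) (hxu (a, b)) (hxu (b, a))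
  have hd := transferMU h ℓ C hC hcomm hdvd _
    (fun i => SMulMemClass.smul_mem _ (add_mem (hxS i) (star_mem (hxS _)))) hAP
  have hprod : (ℓ.map n).prod = ∏ j ∈ T, n j := by
    rw [hℓ, Finset.prod_map_toList]
  exact ⟨T, hprod ▸ hd⟩

end Pool.Agent.H891.UF
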