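import Pool.Agent.H891.UF.Stm

/-! Grouping matrix units: products over disjoint finite sets of sites followed by block sums. -/

set_option autoImplicit false

open Finset

universe u

namespace Pool.Agent.H891.UF

open Pool.Agent.Helper741.UHF

/-- A one-site matrix unit system. -/
structure MU1 {E : Type u} [CStarAlgebra E] (m : ℕ) (g : ℕ → ℕ → E) : Prop where
  pos : 0 < m
  zero_left : ∀ a b, m ≤ a → g a b = 0
  mul_same : ∀ a b c, b < m → g a b * g b c = g a c
  mul_ne : ∀ a b c d, b ≠ c → g a b * g c d = 0
  star_e : ∀ a b, star (g a b) = g b a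
  one : ∑ a ∈ range m, g a a = 1

theorem units_sum_mul {M : Type u} [AddCommMonoid M] (m k : ℕ) (f : ℕ → M) :
    ∑ a ∈ range (m * k), f a = ∑ i ∈ range m, ∑ c ∈ range k, f (i * k + c) := by
  induction m with
  | zero => simp
  | succ m ih => rw [Nat.succ_mul, Finset.sum_range_add, ih, Finset.sum_range_succ]

variable {E : Type u} [CStarAlgebra E]

theorem mu1_trivial : MU1 (E := E) 1 (fun a b => if a = 0 ∧ b = 0 then 1 else 0) where
  pos := one_pos
  zero_left a b h := by
    rw [if_neg]
    omega
  mul_same a b c h := by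
    have hb : b = 0 := by omega
    subst hb
    by_cases ha : a = 0 <;> by_cases hc : c = 0 <;> simp [ha, hc]
  mul_ne a b c d h := by
    by_cases hb : b = 0
    · have hc : c ≠ 0 := fun hc => h (hb.trans hc.symm)
      simp [hc]
    · simp [hb]
  star_e a b := by
    by_cases ha : a = 0 <;> by_cases hb : b = 0 <;> simp [ha, hb]
  one := by simp

theorem mu1_prod {m k : ℕ} {g g' : ℕ → ℕ → E} (hg : MU1 m g) (hg' : MU1 k g')
    (hc : ∀ a b c d, Commute (g a b) (g' c d)) :
    MU1 (m * k) (fun a b => g (a / k) (b / k) * g' (a % k) (b % k)) where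
  pos := Nat.mul_pos hg.pos hg'.pos
  zero_left a b h := by
    have : m ≤ a / k := (Nat.le_div_iff_mul_le hg'.pos).2 h
    show g (a / k) (b / k) * g' (a % k) (b % k) = 0
    rw [hg.zero_left _ _ this, zero_mul]
  mul_same a b c h := by
    have h1 : b / k < m := (Nat.div_lt_iff_lt_mul hg'.pos).2 h
    have h2 : b % k < k := Nat.mod_lt _ hg'.pos
    show g (a / k) (b / k) * g' (a % k) (b % k) * (g (b / k) (c / k) * g' (b % k) (c % k)) =
      g (a / k) (c / k) * g' (a % k) (c % k)
    rw [mul_assoc, ← mul_assoc (g' (a % k) (b % k)), ← (hc _ _ _ _).eq, mul_assoc, ← mul_assoc,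
      hg.mul_same _ _ _ h1, hg'.mul_same _ _ _ h2]
  mul_ne a b c d h := by
    show g (a / k) (b / k) * g' (a % k) (b % k) * (g (c / k) (d / k) * g' (c % k) (d % k)) = 0
    rw [mul_assoc, ← mul_assoc (g' (a % k) (b % k)), ← (hc _ _ _ _).eq, mul_assoc, ← mul_assoc]
    by_cases h1 : b / k = c / k
    · have h2 : b % k ≠ c % k := by
        intro h2
        apply h
        rw [← Nat.div_add_mod b k, ← Nat.div_add_mod c k, h1, h2]
      rw [hg'.mul_ne _ _ _ _ h2, mul_zero]
    · rw [hg.mul_ne _ _ _ _ h1, zero_mul]
  star_e a b := by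
    show star (g (a / k) (b / k) * g' (a % k) (b % k)) = g (b / k) (a / k) * g' (b % k) (a % k)
    rw [star_mul, hg.star_e, hg'.star_e, (hc _ _ _ _).eq]
  one := by
    rw [units_sum_mul]
    have : ∀ i ∈ range m, ∑ c ∈ range k, (fun a b => g (a / k) (b / k) * g' (a % k) (b % k))
        (i * k + c) (i * k + c) = g i i := by
      intro i _
      rw [← mul_one (g i i), ← hg'.one, Finset.mul_sum]
      refine Finset.sum_congr rfl fun c hc' => ?_
      have hck : c < k := Finset.mem_range.1 hc'
      have e1 : (i * k + c) / k = i := by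
        rw [mul_comm, Nat.mul_add_div hg'.pos, Nat.div_eq_of_lt hck, add_zero]
      have e2 : (i * k + c) % k = c := by
        rw [mul_comm, Nat.mul_add_mod, Nat.mod_eq_of_lt hck]
      simp only [e1, e2]
    rw [Finset.sum_congr rfl this, hg.one]

theorem mu1_block {N k : ℕ} (hN : 0 < N) {g : ℕ → ℕ → E} (hg : MU1 (N * k) g) :
    MU1 N (fun a b => if a < N ∧ b < N then ∑ c ∈ range k, g (a * k + c) (b * k + c) else 0) where
  pos := hN
  zero_left a b h := if_neg (by omega)
  mul_same a b c h := by
    by_cases ha : a < N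
    · by_cases hc : c < N
      · simp only [ha, hc, h, and_self, if_true]
        rw [Finset.sum_mul_sum]
        refine Finset.sum_congr rfl fun x hx => ?_
        rw [Finset.sum_eq_single x]
        · apply hg.mul_same
          have hx' := Finset.mem_range.1 hx
          calc b * k + x < b * k + k := by omega
            _ = (b + 1) * k := by ring
            _ ≤ N * k := Nat.mul_le_mul_right _ h
        · intro y _ hy
          apply hg.mul_ne
          omega
        · intro h'
          exact absurd hx h'
      · simp [hc]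
    · simp [ha]
  mul_ne a b c d h := by
    show (if a < N ∧ b < N then ∑ x ∈ range k, g (a * k + x) (b * k + x) else 0) *
      (if c < N ∧ d < N then ∑ x ∈ range k, g (c * k + x) (d * k + x) else 0) = 0
    split_ifs with h1 h2
    · rw [Finset.sum_mul_sum]
      refine Finset.sum_eq_zero fun x hx => Finset.sum_eq_zero fun y hy => ?_
      apply hg.mul_ne
      intro hxy
      have hx' := Finset.mem_range.1 hx
      have hy' := Finset.mem_range.1 hy
      have hk : 0 < k := by omega
      have e1 : (b * k + x) / k = b := by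
        rw [mul_comm, Nat.mul_add_div hk, Nat.div_eq_of_lt hx', add_zero]
      have e2 : (c * k + y) / k = c := by
        rw [mul_comm, Nat.mul_add_div hk, Nat.div_eq_of_lt hy', add_zero]
      apply h
      rw [← e1, ← e2, hxy]
    all_goals simp
  star_e a b := by
    by_cases ha : a < N <;> by_cases hb : b < N <;> simp [ha, hb, star_sum, hg.star_e]
  one := by
    rw [← hg.one, units_sum_mul]
    refine Finset.sum_congr rfl fun a ha => ?_
    have := Finset.mem_range.1 ha
    simp [this]

theorem units_finset {J : Type u} {m : J → ℕ} {e : J → ℕ → ℕ → E} (h : MUSys m e)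
    (T : Finset J) : ∃ g : ℕ → ℕ → E, MU1 (∏ j ∈ T, m j) g ∧
      ∀ w : E, (∀ j ∈ T, ∀ c d, Commute (e j c d) w) → ∀ a b, Commute (g a b) w := by
  classical
  induction T using Finset.induction_on with
  | empty =>
    refine ⟨_, by simpa using mu1_trivial, ?_⟩
    intro w _ a b
    split_ifs
    · exact Commute.one_left w
    · exact Commute.zero_left w
  | insert j T hj ih =>
    obtain ⟨g, hg, hgc⟩ := ih
    have h1 : MU1 (m j) (e j) :=
      ⟨h.pos j, h.zero_left j, h.mul_same j, h.mul_ne j, h.star_e j, h.one j⟩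
    refine ⟨_, by
      rw [Finset.prod_insert hj]
      refine mu1_prod h1 hg fun a b c d => ?_
      refine (hgc (e j a b) (fun i hi x y => ?_) c d).symm
      exact h.comm i j (fun hij => hj (hij ▸ hi)) x y a b, ?_⟩
    intro w hw a b
    apply Commute.mul_left
    · exact hw j (Finset.mem_insert_self j T) _ _
    · exact hgc w (fun i hi => hw i (Finset.mem_insert_of_mem hi)) _ _

theorem t_UNITS : S_UNITS.{u} := by
  intro J K E _ m e h N hN F hF hdiv
  have key : ∀ k : K, ∃ g : ℕ → ℕ → E, MU1 N g ∧
      ∀ w : E, (∀ j ∈ F k, ∀ c d, Commute (e j c d) w) → ∀ a b, Commute (g a b) w := by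
    intro k
    obtain ⟨g, hg, hgc⟩ := units_finset h (F k)
    obtain ⟨q, hq⟩ := hdiv k
    rw [hq] at hg
    refine ⟨_, mu1_block hN hg, ?_⟩
    intro w hw a b
    split_ifs
    · exact Commute.sum_left _ _ _ fun c _ => hgc w hw _ _
    · exact Commute.zero_left w
  choose g hg hgc using key
  refine ⟨g, fun k => (hg k).pos, fun k => (hg k).zero_left, fun k => (hg k).mul_same,
    fun k => (hg k).mul_ne, fun k => (hg k).star_e, fun k => (hg k).one, ?_⟩
  intro k l hkl a b c d
  refine hgc k (g l c d) (fun j hj x y => ?_) a b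
  refine (hgc l (e j x y) (fun i hi x' y' => ?_) c d).symm
  refine h.comm i j ?_ x' y' x y
  rintro rfl
  exact Finset.disjoint_left.1 (hF k l hkl) hj hi

end Pool.Agent.H891.UF
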